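import Mathlib

set_option autoImplicit false
set_option maxSynthPendingDepth 3

namespace Pool.Agent.Results.MP_71df81_al.AllK

open Nat

/-- the set of products of `g 0, …, g (n-1)` in all orders. -/
def P {G : Type*} [Group G] {n : ℕ} (g : Fin n → G) : Set G :=
  {x | ∃ σ : Equiv.Perm (Fin n), x = (List.ofFn fun i => g (σ i)).prod}

@[ext] structure H {V A : Type} [AddCommGroup V] [AddCommGroup A] (β : V →+ V →+ A) where
  v : V
  c : A

variable {V A : Type} [AddCommGroup V] [AddCommGroup A] {β : V →+ V →+ A}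

instance : Mul (H β) := ⟨fun x y => ⟨x.v + y.v, x.c + y.c + β x.v y.v⟩⟩
instance : One (H β) := ⟨⟨0, 0⟩⟩
instance : Inv (H β) := ⟨fun x => ⟨-x.v, -x.c + β x.v x.v⟩⟩
@[simp] lemma mul_v (x y : H β) : (x * y).v = x.v + y.v := rfl
@[simp] lemma mul_c (x y : H β) : (x * y).c = x.c + y.c + β x.v y.v := rfl
@[simp] lemma one_v : (1 : H β).v = 0 := rfl
@[simp] lemma one_c : (1 : H β).c = 0 := rfl
@[simp] lemma inv_v (x : H β) : x⁻¹.v = -x.v := rfl
@[simp] lemma inv_c (x : H β) : x⁻¹.c = -x.c + β x.v x.v := rfl

instance : Group (H β) := Group.ofLeftAxioms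
  (fun x y z => by ext <;> simp <;> abel) (fun x => by ext <;> simp) (fun x => by ext <;> simp)

lemma pow_c (a : A) (m : ℕ) : (⟨0, a⟩ : H β) ^ m = ⟨0, m • a⟩ := by
  induction m with
  | zero => ext <;> simp
  | succ m ih => rw [_root_.pow_succ, ih]; ext <;> simp [succ_nsmul]

lemma prod_v (l : List (H β)) : l.prod.v = (l.map H.v).sum := by
  induction l with
  | nil => rfl
  | cons a l ih => simp [ih]

lemma main {G : Type*} [Group G] (g : ℕ → G) (z : G) (hz : ∀ x, Commute z x) (n : ℕ)
    (h : ∀ i < n, ∀ j < i, g i * g j = z ^ i ! * (g j * g i)) : ∀ m < n !, ∃ l : List ℕ,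
      l.Perm (List.range n) ∧ (l.map g).prod = z ^ m * ((List.range n).map g).prod := by
  induction n with
  | zero => exact fun m hm => ⟨[], by simp, by simp at hm; simp [hm]⟩
  | succ n ih =>
    intro m hm
    obtain ⟨l, h1, h2⟩ := ih (fun i hi => h i (by omega)) (m % n !) (mod_lt _ (factorial_pos n))
    have mv : ∀ l : List ℕ, (∀ j ∈ l, j < n) →
        g n * (l.map g).prod = z ^ (n ! * l.length) * ((l.map g).prod * g n) := by
      intro l hl
      induction l with
      | nil => simp
      | cons a l ih =>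
        rw [List.map_cons, List.prod_cons, ← mul_assoc, h n n.lt_succ_self a (hl a (by simp)),
          mul_assoc, mul_assoc, ih (fun j hj => hl j (by simp [hj])), List.length_cons, mul_add_one,
          add_comm, pow_add, ← mul_assoc (g a), ← ((hz (g a)).pow_left _).eq]
        simp only [mul_assoc]
    have hq : m / n ! ≤ n := Nat.lt_succ_iff.1 (Nat.div_lt_of_lt_mul (by rwa [mul_comm]))
    have hl : l.length = n := by simpa using h1.length_eq
    refine ⟨l.take (n - m / n !) ++ n :: l.drop (n - m / n !), ?_, ?_⟩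
    · rw [List.range_succ]
      refine List.perm_middle.trans ?_
      rw [List.take_append_drop]
      exact (h1.cons n).trans (List.perm_append_singleton _ _).symm
    · rw [List.map_append, List.prod_append, List.map_cons, List.prod_cons,
        mv _ (fun j hj => List.mem_range.1 (h1.subset (List.mem_of_mem_drop hj))), ← mul_assoc,
        ← ((hz _).pow_left _).eq, mul_assoc, ← mul_assoc _ _ (g n), ← List.prod_append,
        ← List.map_append, List.take_append_drop, h2, List.length_drop, hl,
        Nat.sub_sub_self hq, List.range_succ, List.map_append, List.prod_append, ← mul_assoc,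
        ← mul_assoc, ← pow_add, Nat.div_add_mod]
      simp [mul_assoc]

/-- every `k` with `1 ≤ k ≤ n!` is the number of distinct products of some `n` distinct elements. -/
theorem result (n k : ℕ) (h1 : 1 ≤ k) (h2 : k ≤ n !) :
    ∃ (G : Type) (_ : Group G) (g : Fin n → G), Function.Injective g ∧ (P g).Finite ∧
      (P g).ncard = k := by
  have : NeZero k := ⟨by omega⟩
  let M : Matrix (Fin n) (Fin n) (ZMod k) := fun i j => if j < i then ((i : ℕ)! : ℕ) else 0
  let β : (Fin n → ℤ) →+ (Fin n → ℤ) →+ ZMod k :=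
    LinearMap.toAddMonoidHom'.comp (Matrix.toLinearMap₂' ℤ M).toAddMonoidHom
  let g : ℕ → H β := fun i => ⟨fun j => if j = i then 1 else 0, 0⟩
  have hg : ∀ i : Fin n, (g i).v = Pi.single i 1 := fun i => funext fun j => by
    simp [g, Pi.single_apply, Fin.ext_iff]
  have hβ : ∀ i j : Fin n, β (g i).v (g j).v = M i j := fun i j => by
    rw [hg, hg]
    exact Matrix.toLinearMap₂'Aux_single (RingHom.id ℤ) (RingHom.id ℤ) M i j
  have hP : P (fun i : Fin n => g i) = Set.range fun a : ZMod k => ⟨∑ i : Fin n, (g i).v, a⟩ := by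
    have hv : ∀ σ : Equiv.Perm (Fin n), (List.ofFn fun i => g (σ i)).prod.v = ∑ i : Fin n, (g i).v :=
      fun σ => by rw [prod_v, List.map_ofFn, List.sum_ofFn]; exact Equiv.sum_comp σ fun i => (g i).v
    ext x
    refine ⟨fun ⟨σ, h⟩ => ⟨x.c, H.ext (by rw [h, hv]) rfl⟩, ?_⟩
    rintro ⟨a, rfl⟩
    obtain ⟨l, l1, l2⟩ := main g ⟨0, 1⟩ (fun x => H.ext (by simp) (by simp [add_comm])) n
      (fun i hi j hj => by
        rw [pow_c]
        refine H.ext (by simp [add_comm]) ?_
        simp only [mul_c, hβ ⟨i, hi⟩ ⟨j, hj.trans hi⟩, hβ ⟨j, hj.trans hi⟩ ⟨i, hi⟩]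
        simp [M, g, hj, hj.not_gt])
      (a - ((List.range n).map g).prod.c).val ((ZMod.val_lt _).trans_le h2)
    have hl : l.length = n := by simpa using l1.length_eq
    let s : Fin n → Fin n := fun i => ⟨l[i], List.mem_range.1 (l1.subset (List.getElem_mem _))⟩
    have hs : Function.Injective s := fun i j h => Fin.ext
      ((l1.nodup_iff.2 List.nodup_range).getElem_inj_iff.1 (congrArg Fin.val h))
    have h3 : (List.ofFn fun i => g (Equiv.ofBijective s hs.bijective_of_finite i)) = l.map g :=
      List.ext_getElem (by simp [hl]) fun i _ _ => by simp [s]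
    refine ⟨Equiv.ofBijective s hs.bijective_of_finite, H.ext (hv _).symm ?_⟩
    rw [h3, l2, pow_c]
    simp
  refine ⟨H β, inferInstance, fun i => g i, fun i j h => ?_, hP ▸ Set.finite_range _, ?_⟩
  · have := congrFun (congrArg H.v h) i
    simpa [g, Fin.ext_iff] using this
  · rw [hP, Set.ncard_range_of_injective fun a b h => congrArg H.c h, Nat.card_zmod]

end Pool.Agent.Results.MP_71df81_al.AllK
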